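import Mathlib

set_option autoImplicit false

namespace Pool.Agent.Results.MP_01f920_co.Disproof

open Finset

/-- The family `H` of `k`-subsets of `[n]` meeting each class `X i` in at least `c i` points. -/
def famH {n d : ℕ} (k : ℕ) (X : Fin d → Finset (Fin n)) (c : Fin d → ℕ) :
    Finset (Finset (Fin n)) :=
  (powersetCard k univ).filter (fun F => ∀ i, c i ≤ (F ∩ X i).card)

def X0 : Fin 2 → Finset (Fin 11) := ![{0, 1, 2, 3, 4}, {5, 6, 7, 8, 9, 10}]

def c0 : Fin 2 → ℕ := ![2, 1]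

def G0 : Finset (Finset (Fin 11)) :=
  (famH 5 X0 c0).filter (fun F => 0 ∈ F ∨ ({1, 2, 3, 4} : Finset (Fin 11)) ⊆ F)

lemma key (A B : Finset (Fin 11)) (hA : A ∈ famH 5 X0 c0)
    (hB : ({1, 2, 3, 4} : Finset (Fin 11)) ⊆ B) : (A ∩ B).Nonempty := by
  have h := (mem_filter.mp hA).2 0
  by_contra hne
  rw [not_nonempty_iff_eq_empty] at hne
  have hsub : A ∩ X0 0 ⊆ {0} := by
    intro x hx
    rw [mem_inter] at hx
    by_contra hx0
    have hxB : x ∈ ({1, 2, 3, 4} : Finset (Fin 11)) := by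
      have h2 := hx.2
      revert hx0 h2
      generalize x = y
      revert y
      decide
    have : x ∈ A ∩ B := mem_inter.mpr ⟨hx.1, hB hxB⟩
    rw [hne] at this
    simp at this
  have := card_le_card hsub
  simp [c0] at h this
  omega

theorem result :
    ∃ (d n k : ℕ) (X : Fin d → Finset (Fin n)) (c : Fin d → ℕ),
      1 ≤ d ∧ (∀ i j, i ≠ j → Disjoint (X i) (X j)) ∧ (∀ x, ∃ i, x ∈ X i) ∧
      (∑ j, c j ≤ k) ∧ (∀ i, 2 * c i < (X i).card) ∧
      (∀ i, (k - ∑ j, c j) + c i < (X i).card) ∧ 2 * k < n ∧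
      ∃ G ⊆ famH k X c, (∀ A ∈ G, ∀ B ∈ G, (A ∩ B).Nonempty) ∧
        ∀ x : Fin n, ((famH k X c).filter (fun F => x ∈ F)).card < G.card := by
  refine ⟨2, 11, 5, X0, c0, by norm_num, by decide, by decide, by decide, by decide, by decide,
    by norm_num, G0, filter_subset _ _, ?_, by decide +kernel⟩
  intro A hA B hB
  obtain ⟨hA1, hA2⟩ := mem_filter.mp hA
  obtain ⟨hB1, hB2⟩ := mem_filter.mp hB
  rcases hB2 with hB2 | hB2
  · rcases hA2 with hA2 | hA2
    · exact ⟨0, mem_inter.mpr ⟨hA2, hB2⟩⟩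
    · rw [inter_comm]
      exact key B A hB1 hA2
  · exact key A B hA1 hB2

end Pool.Agent.Results.MP_01f920_co.Disproof
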